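import Pool.Agent.H812.SF.Stm3

/-!
# SF-ROT: the symmetry group of the domain
-/

set_option autoImplicit false

open Set Filter Topology

namespace Pool.Agent.H47.SfROT

open Pool.Agent.N229.SC (Par W A Al Wt cf mon wW Rad inc conj hol Phi evh fF rF Om Conf cc S_A1
  S_A2 S_EH S_INJ S_TOP)
open Pool.Agent.H812.SF (RotN S_ROT)

/-- Rotations which map the image of the unit disc into itself lift to the disc. -/
theorem rot_conf (ρ r : ℝ) (f : ℂ → ℂ) (hC : Conf ρ r f) (hINJ : S_INJ) (hTOP : S_TOP) (ω : ℂ)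
    (hω : ‖ω‖ = 1) (h : ∀ z ∈ Om f, ω * z ∈ Om f) :
    ∀ z ∈ Metric.ball (0 : ℂ) 1, f (ω * z) = ω * f z := by
  obtain ⟨hlip, hinj⟩ := hINJ ρ r f hC
  have hopen : IsOpen (Om f) := (hTOP ρ r f hC).1
  have hsub : Metric.ball (0 : ℂ) 1 ⊆ Metric.ball (0 : ℂ) r := Metric.ball_subset_ball hC.r_gt.le
  have hρ := hC.rho_pos
  obtain ⟨g, hg⟩ : ∃ g, g = Function.invFunOn f (Metric.ball (0 : ℂ) 1) := ⟨_, rfl⟩
  have hg1 : ∀ x ∈ Om f, g x ∈ Metric.ball (0 : ℂ) 1 ∧ f (g x) = x := by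
    intro x hx
    rw [hg]
    exact ⟨Function.invFunOn_mem hx, Function.invFunOn_eq hx⟩
  have hgl : ∀ x ∈ Om f, ∀ y ∈ Om f, ‖g y - g x‖ ≤ 2 / ρ * ‖y - x‖ := by
    intro x hx y hy
    obtain ⟨hx1, hx2⟩ := hg1 x hx
    obtain ⟨hy1, hy2⟩ := hg1 y hy
    have h1 := hlip (g y) (hsub hy1) (g x) (hsub hx1)
    rw [hx2, hy2] at h1
    have h2 : ‖(ρ : ℂ) * (g y - g x)‖ = ρ * ‖g y - g x‖ := by
      rw [norm_mul, Complex.norm_real, Real.norm_eq_abs, abs_of_pos hρ]
    have h3 : ‖(ρ : ℂ) * (g y - g x)‖ ≤ ‖y - x‖ + ‖y - x - ρ * (g y - g x)‖ := by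
      have h4 := norm_sub_le (y - x) (y - x - ρ * (g y - g x))
      rwa [sub_sub_cancel] at h4
    rw [h2] at h3
    rw [div_mul_eq_mul_div, le_div_iff₀ hρ]
    have h5 := norm_nonneg (y - x)
    nlinarith
  have hgc : ∀ x ∈ Om f, ContinuousAt g x := by
    intro x hx
    rw [ContinuousAt, tendsto_iff_norm_sub_tendsto_zero]
    have h1 : Tendsto (fun y => 2 / ρ * ‖y - x‖) (𝓝 x) (𝓝 0) := by
      have h2 : Continuous fun y : ℂ => 2 / ρ * ‖y - x‖ := by fun_prop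
      have h3 := h2.tendsto x
      simpa using h3
    refine squeeze_zero' (Eventually.of_forall fun y => norm_nonneg _) ?_ h1
    filter_upwards [hopen.mem_nhds hx] with y hy
    exact hgl x hx y hy
  have hfd : ∀ z ∈ Metric.ball (0 : ℂ) 1, HasDerivAt f (deriv f z) z ∧ deriv f z ≠ 0 := by
    intro z hz
    refine ⟨(hC.f_diff.differentiableAt (Metric.isOpen_ball.mem_nhds (hsub hz))).hasDerivAt, ?_⟩
    intro h0
    have h1 := hC.f_der z (hsub hz)
    rw [h0, zero_sub, norm_neg, Complex.norm_real, Real.norm_eq_abs, abs_of_pos hρ] at h1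
    linarith
  have hgd : ∀ x ∈ Om f, HasDerivAt g (deriv f (g x))⁻¹ x := by
    intro x hx
    obtain ⟨hx1, hx2⟩ := hg1 x hx
    obtain ⟨d1, d2⟩ := hfd (g x) hx1
    refine HasDerivAt.of_local_left_inverse (hgc x hx) d1 d2 ?_
    filter_upwards [hopen.mem_nhds hx] with y hy
    exact (hg1 y hy).2
  have hmem : ∀ z ∈ Metric.ball (0 : ℂ) 1, ω * f z ∈ Om f := fun z hz => h _ ⟨z, hz, rfl⟩
  have hψd : ∀ z ∈ Metric.ball (0 : ℂ) 1, HasDerivAt (fun z => g (ω * f z))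
      ((deriv f (g (ω * f z)))⁻¹ * (ω * deriv f z)) z := by
    intro z hz
    exact HasDerivAt.comp (h₂ := g) (h := fun z => ω * f z) z (hgd _ (hmem z hz))
      ((hfd z hz).1.const_mul ω)
  have h0 : (0 : ℂ) ∈ Metric.ball (0 : ℂ) 1 := Metric.mem_ball_self one_pos
  have hψ0 : g (ω * f 0) = 0 := by
    rw [hC.f_zero, mul_zero]
    have h0m : (0 : ℂ) ∈ Om f := ⟨0, h0, hC.f_zero⟩
    obtain ⟨h1, h2⟩ := hg1 0 h0m
    exact hinj (hsub h1) (hsub h0) (h2.trans hC.f_zero.symm)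
  have hmaps : MapsTo (fun z => g (ω * f z)) (Metric.ball (0 : ℂ) 1)
      (Metric.closedBall ((fun z => g (ω * f z)) 0) 1) := by
    intro z hz
    show g (ω * f z) ∈ Metric.closedBall (g (ω * f 0)) 1
    rw [hψ0]
    exact Metric.ball_subset_closedBall (hg1 _ (hmem z hz)).1
  have hds : dslope (fun z => g (ω * f z)) 0 0 = ω := by
    rw [dslope_same, (hψd 0 h0).deriv, hψ0, ← mul_assoc, mul_comm _ ω, mul_assoc,
      inv_mul_cancel₀ (hfd 0 h0).2, mul_one]
  have hS := Complex.affine_of_mapsTo_ball_of_norm_dslope_eq_div (f := fun z => g (ω * f z))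
    (c := 0) (R₁ := 1) (R₂ := 1) (z₀ := 0)
    (fun z hz => (hψd z hz).differentiableAt.differentiableWithinAt) hmaps h0
    (by rw [hds, hω, div_one])
  intro z hz
  have h1 := hS hz
  simp only [hψ0, hds, sub_zero, zero_add, smul_eq_mul] at h1
  have h2 := (hg1 _ (hmem z hz)).2
  rw [h1, mul_comm z ω] at h2
  exact h2

/-- The first two terms of the power series. -/
theorem evh_bound (hA1 : S_A1) (c : W) (w : ℂ) (hw : ‖w‖ ≤ 1) :
    ‖evh c w - (cf c 0 : ℂ) - (cf c 1 : ℂ) * w‖ ≤ ‖c‖ * ‖w‖ ^ 2 := by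
  obtain ⟨-, -, -, -, -, -, -, h8, -⟩ := hA1 wW
  have hs : HasSum (fun j : ℤ => |cf c j| * wW j) ‖c‖ := h8 c
  have hW1 : ∀ j, 1 ≤ wW j := Wt.one_le
  have hinj : Function.Injective (fun k : ℕ => ((k : ℕ) : ℤ)) := Nat.cast_injective
  have hsN : Summable (fun k : ℕ => |cf c (k : ℤ)| * wW (k : ℤ)) :=
    hs.summable.comp_injective hinj
  have hb : ∀ k : ℕ, ‖(cf c (k : ℤ) : ℂ) * w ^ k‖ ≤ |cf c (k : ℤ)| * wW (k : ℤ) := by
    intro k
    rw [norm_mul, norm_pow, Complex.norm_real, Real.norm_eq_abs]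
    refine mul_le_mul_of_nonneg_left ?_ (abs_nonneg _)
    exact (pow_le_one₀ (norm_nonneg _) hw).trans (hW1 _)
  have hsum : Summable (fun k : ℕ => (cf c (k : ℤ) : ℂ) * w ^ k) :=
    Summable.of_norm_bounded hsN hb
  have h1 : evh c w - (cf c 0 : ℂ) - (cf c 1 : ℂ) * w =
      ∑' k : ℕ, (cf c ((k + 2 : ℕ) : ℤ) : ℂ) * w ^ (k + 2) := by
    have h2 := hsum.sum_add_tsum_nat_add 2
    have h3 : evh c w = ∑' k : ℕ, (cf c (k : ℤ) : ℂ) * w ^ k := rfl
    rw [h3, ← h2, Finset.sum_range_succ, Finset.sum_range_one]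
    simp only [pow_zero, pow_one, mul_one, Nat.cast_zero, Nat.cast_one]
    ring
  rw [h1]
  have hinj2 : Function.Injective (fun k : ℕ => ((k + 2 : ℕ) : ℤ)) := by
    intro a b hab
    have h2 : ((a + 2 : ℕ) : ℤ) = ((b + 2 : ℕ) : ℤ) := hab
    have h3 : a + 2 = b + 2 := by exact_mod_cast h2
    omega
  have hs2 : Summable (fun k : ℕ => |cf c ((k + 2 : ℕ) : ℤ)| * wW ((k + 2 : ℕ) : ℤ)) :=
    hs.summable.comp_injective hinj2
  have hle : ∑' k : ℕ, |cf c ((k + 2 : ℕ) : ℤ)| * wW ((k + 2 : ℕ) : ℤ) ≤ ‖c‖ := by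
    have h2 := tsum_comp_le_tsum_of_inj hs.summable
      (fun j => mul_nonneg (abs_nonneg _) (zero_le_one.trans (hW1 j))) hinj2
    rw [hs.tsum_eq] at h2
    exact h2
  have h4 : ‖∑' k : ℕ, (cf c ((k + 2 : ℕ) : ℤ) : ℂ) * w ^ (k + 2)‖ ≤
      (∑' k : ℕ, |cf c ((k + 2 : ℕ) : ℤ)| * wW ((k + 2 : ℕ) : ℤ)) * ‖w‖ ^ 2 := by
    refine tsum_of_norm_bounded (hs2.hasSum.mul_right (‖w‖ ^ 2)) ?_
    intro k
    rw [norm_mul, norm_pow, Complex.norm_real, Real.norm_eq_abs, pow_add, ← mul_assoc]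
    refine mul_le_mul_of_nonneg_right ?_ (by positivity)
    refine mul_le_mul_of_nonneg_left ?_ (abs_nonneg _)
    exact (pow_le_one₀ (norm_nonneg _) hw).trans (hW1 _)
  exact h4.trans (mul_le_mul_of_nonneg_right hle (by positivity))

/-- A rotation which preserves the function `evh c` kills the coefficient of `w`, or is trivial. -/
theorem rot_coeff (hA1 : S_A1) (c : W) (θ : ℂ) (hθ : ‖θ‖ = 1)
    (h : ∀ w : ℂ, w ≠ 0 → ‖w‖ < 1 → evh c (θ * w) = evh c w) :
    (cf c 1 : ℂ) * (θ - 1) = 0 := by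
  by_contra hne
  have hδ : 0 < ‖(cf c 1 : ℂ) * (θ - 1)‖ := norm_pos_iff.mpr hne
  set δ := ‖(cf c 1 : ℂ) * (θ - 1)‖ with hδ'
  have hc0 := norm_nonneg c
  set M := 2 * ‖c‖ + 1 with hM
  have hM0 : 0 < M := by linarith
  set t := min (1 / 2) (δ / (2 * M)) with ht
  have ht0 : 0 < t := lt_min (by norm_num) (by positivity)
  have ht1 : t ≤ 1 / 2 := min_le_left _ _
  have ht2 : t ≤ δ / (2 * M) := min_le_right _ _
  have htn : ‖(t : ℂ)‖ = t := by
    rw [Complex.norm_real, Real.norm_eq_abs, abs_of_pos ht0]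
  have h1 := h (t : ℂ) (by exact_mod_cast ht0.ne') (by rw [htn]; linarith)
  have h2 := evh_bound hA1 c (t : ℂ) (by rw [htn]; linarith)
  have hθt : ‖θ * (t : ℂ)‖ = t := by rw [norm_mul, hθ, htn, one_mul]
  have h3 := evh_bound hA1 c (θ * (t : ℂ)) (by rw [hθt]; linarith)
  rw [htn] at h2
  rw [hθt, h1] at h3
  have h4 : (cf c 1 : ℂ) * (θ - 1) * (t : ℂ) =
      (evh c t - (cf c 0 : ℂ) - (cf c 1 : ℂ) * t) -
        (evh c t - (cf c 0 : ℂ) - (cf c 1 : ℂ) * (θ * t)) := by ring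
  have h5 : δ * t ≤ ‖c‖ * t ^ 2 + ‖c‖ * t ^ 2 := by
    have h6 := (norm_sub_le (evh c (t : ℂ) - (cf c 0 : ℂ) - (cf c 1 : ℂ) * t)
      (evh c (t : ℂ) - (cf c 0 : ℂ) - (cf c 1 : ℂ) * (θ * t))).trans (add_le_add h2 h3)
    rw [← h4, norm_mul, htn] at h6
    exact h6
  have h7 : δ ≤ 2 * ‖c‖ * t := by
    have h8 : δ * t ≤ (2 * ‖c‖ * t) * t := by nlinarith
    exact le_of_mul_le_mul_right h8 ht0
  have h9 : M * t ≤ δ / 2 := by
    calc M * t ≤ M * (δ / (2 * M)) := mul_le_mul_of_nonneg_left ht2 hM0.le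
      _ = δ / 2 := by field_simp
  nlinarith

/-- The symmetry group of the domain. -/
theorem proof_ROT (hA1 : S_A1) (hA2 : S_A2) (_hAB : Pool.Agent.H812.SF.S_AB)
    (hB1 : Pool.Agent.H812.SF.S_B1) (hEH : S_EH) (hINJ : S_INJ)
    (hFN1 : Pool.Agent.H812.SF.S_FN1) (hTOP : S_TOP) : S_ROT := by
  intro P X h v y hF ω hω
  have hG := hF.good
  have hX0 := hF.X_pos
  have hX1 := hF.X_le
  have hρ : 0 < P.ρ := lt_of_lt_of_le (by norm_num) hG.rho
  have hnu1 := hG.nu1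
  have hnu2 := hG.nu2
  have hn : (8000 : ℝ) ≤ P.n := by
    unfold Par.nu at hnu1
    rw [le_div_iff₀ hρ] at hnu1
    have := hG.rho
    linarith
  have hn0 : P.n ≠ 0 := by
    rintro h0
    rw [h0] at hn
    norm_num at hn
  have hnp : (0 : ℝ) < P.n := by linarith
  have hω0 : ω ≠ 0 := by
    rintro rfl
    rw [norm_zero] at hω
    exact zero_ne_one hω
  constructor
  · intro heq
    obtain ⟨hC, -⟩ := hFN1 P X h v y hF
    have hsub : ∀ z ∈ Om (fF P h), ω * z ∈ Om (fF P h) := by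
      intro z hz
      rw [← heq]
      exact ⟨z, hz, rfl⟩
    have hrot := rot_conf P.ρ (rF P) (fF P h) hC hINJ hTOP ω hω hsub
    have hh : ‖h‖ ≤ 6 / 10 ^ 4 := by
      have := hF.sol.nh
      linarith
    have hh0 := norm_nonneg h
    have hPhi : ‖Phi P h‖ ≤ 1 := by
      refine (hB1 P hG h (by linarith)).1.1.trans ?_
      nlinarith
    obtain ⟨-, e2, -⟩ := hEH wW Pool.Agent.N229.SC.wA_le_wW
    have hsmall : ∀ w : ℂ, ‖w‖ < 1 → ‖evh (Phi P h) w / (P.n : ℂ)‖ ≤ 1 := by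
      intro w hw
      have h1 := (e2 (Phi P h) w (hw.le.trans Pool.Agent.N229.SC.one_le_Rad)).trans hPhi
      rw [norm_div, Complex.norm_natCast, div_le_iff₀ hnp]
      linarith
    have him : ∀ u : ℂ, ‖u‖ ≤ 1 → -Real.pi < u.im ∧ u.im ≤ Real.pi := by
      intro u hu
      have h1 := abs_le.mp ((Complex.abs_im_le_norm u).trans hu)
      have h2 := Real.pi_gt_three
      constructor <;> linarith [h1.1, h1.2]
    have hinv : ∀ w : ℂ, w ≠ 0 → ‖w‖ < 1 →
        evh (Phi P h) (ω ^ P.n * w) = evh (Phi P h) w := by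
      intro w hw0 hw1
      obtain ⟨z, hz⟩ := IsAlgClosed.exists_pow_nat_eq w (Nat.pos_of_ne_zero hn0)
      have hz0 : z ≠ 0 := by
        rintro rfl
        rw [zero_pow hn0] at hz
        exact hw0 hz.symm
      have hz1 : ‖z‖ < 1 := by
        by_contra hcon
        push Not at hcon
        have h1 := one_le_pow₀ hcon (n := P.n)
        rw [← norm_pow, hz] at h1
        linarith
      have h1 := hrot z (by rw [mem_ball_zero_iff]; exact hz1)
      unfold fF at h1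
      rw [mul_pow, hz] at h1
      have h2 : Complex.exp (evh (Phi P h) (ω ^ P.n * w) / P.n) =
          Complex.exp (evh (Phi P h) w / P.n) := by
        have h3 : (P.ρ : ℂ) * ω * z ≠ 0 :=
          mul_ne_zero (mul_ne_zero (by exact_mod_cast hρ.ne') hω0) hz0
        apply mul_left_cancel₀ h3
        calc (P.ρ : ℂ) * ω * z * Complex.exp (evh (Phi P h) (ω ^ P.n * w) / P.n)
            = P.ρ * (ω * z) * Complex.exp (evh (Phi P h) (ω ^ P.n * w) / P.n) := by ring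
          _ = ω * (P.ρ * z * Complex.exp (evh (Phi P h) w / P.n)) := h1
          _ = _ := by ring
      have hωw : ‖ω ^ P.n * w‖ < 1 := by
        rw [norm_mul, norm_pow, hω, one_pow, one_mul]
        exact hw1
      obtain ⟨i1, i2⟩ := him _ (hsmall _ hωw)
      obtain ⟨i3, i4⟩ := him _ (hsmall _ hw1)
      have h4 := Complex.exp_inj_of_neg_pi_lt_of_le_pi i1 i2 i3 i4 h2
      have hn' : (P.n : ℂ) ≠ 0 := by exact_mod_cast hn0
      exact (div_left_inj' hn').mp h4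
    have hθ : ‖ω ^ P.n‖ = 1 := by rw [norm_pow, hω, one_pow]
    have hco := rot_coeff hA1 (Phi P h) (ω ^ P.n) hθ hinv
    -- the coefficient is not zero
    have hcf : cf (Phi P h) 1 ≠ 0 := by
      obtain ⟨a1, a2, -, -, a5, a6, a7, -⟩ := hA1 wW
      obtain ⟨-, ⟨hconj, -⟩, ⟨hhol, -⟩, -⟩ := hA2
      have h1 : cf (Phi P h) 1 = P.nu * (cf h 1 + cf h (-1)) := by
        unfold Phi
        rw [a5, hhol, if_pos one_pos]
      have h2 : cf h (-1) = cf h 1 := by
        have h3 := hconj h 1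
        rw [hF.sol.hc] at h3
        exact h3.symm
      have h4 : |cf h 1 - X / 2| ≤ 15 * X ^ 2 := by
        have h5 := (a7 (h - X • cc) 1).trans hF.hX
        have h6 : cf (h - X • cc) 1 = cf h 1 - X / 2 := by
          rw [a2, a5]
          unfold cc
          rw [a5, a1, a6, a6, if_pos rfl, if_neg (by norm_num)]
          ring
        rw [h6] at h5
        have h7 : (1 : ℝ) ≤ wW 1 := Wt.one_le (w := wW) 1
        have h8 := abs_nonneg (cf h 1 - X / 2)
        nlinarith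
      have h5 : 0 < cf h 1 := by
        have h6 := (abs_le.mp h4).1
        have h7 : 15 * X ^ 2 < X / 2 := by nlinarith
        linarith
      rw [h1, h2]
      have h6 : 0 < P.nu := by linarith
      positivity
    have h1 := (mul_eq_zero.mp hco).resolve_left (by exact_mod_cast hcf)
    exact sub_eq_zero.mp h1
  · intro hωn
    have hrot : ∀ z, fF P h (ω * z) = ω * fF P h z := by
      intro z
      unfold fF
      rw [mul_pow, hωn, one_mul]
      ring
    ext x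
    constructor
    · rintro ⟨_, ⟨z, hz, rfl⟩, rfl⟩
      refine ⟨ω * z, ?_, hrot z⟩
      rw [mem_ball_zero_iff, norm_mul, hω, one_mul]
      exact mem_ball_zero_iff.mp hz
    · rintro ⟨z, hz, rfl⟩
      refine ⟨fF P h (ω⁻¹ * z), ⟨ω⁻¹ * z, ?_, rfl⟩, ?_⟩
      · rw [mem_ball_zero_iff, norm_mul, norm_inv, hω, inv_one, one_mul]
        exact mem_ball_zero_iff.mp hz
      · show ω * fF P h (ω⁻¹ * z) = fF P h z
        rw [← hrot, mul_inv_cancel_left₀ hω0]

end Pool.Agent.H47.SfROT
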