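import Pool.Agent.H812.SO.Stm

/-!
# S_H of the project SO (helper812): the spacing function
-/

set_option autoImplicit false

namespace Pool.Agent.H47.SoH

open Set Pool.Agent.H812.SO Pool.Agent.N229.SC

/-- `g = τ² / (τ - v)² - 1` -/
theorem g_bd {τ v : ℝ} (h1 : 1231 / 1000 ≤ τ) (h2 : τ ≤ 12312 / 10000) (hv : 0 ≤ v)
    (hv' : v ≤ 1 / 100) :
    162 / 100 * v ≤ τ ^ 2 / (τ - v) ^ 2 - 1 ∧ τ ^ 2 / (τ - v) ^ 2 - 1 ≤ 166 / 100 * v := by
  have h3 : 1221 / 1000 ≤ τ - v := by linarith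
  have h4 : (0 : ℝ) < τ - v := by linarith
  have h5 : (0 : ℝ) < (τ - v) ^ 2 := by positivity
  have e : τ ^ 2 / (τ - v) ^ 2 - 1 = v * (2 * τ - v) / (τ - v) ^ 2 := by
    field_simp
    ring
  rw [e]
  constructor
  · rw [le_div_iff₀ h5]
    have h6 : 162 / 100 * (τ - v) ^ 2 ≤ 2 * τ - v := by
      nlinarith [mul_le_mul_of_nonneg_left (by linarith : τ - v ≤ 12312 / 10000) h4.le]
    nlinarith [mul_le_mul_of_nonneg_left h6 hv]
  · rw [div_le_iff₀ h5]
    have h6 : 2 * τ - v ≤ 166 / 100 * (τ - v) ^ 2 := by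
      nlinarith [mul_le_mul_of_nonneg_left h3 h4.le]
    nlinarith [mul_le_mul_of_nonneg_left h6 hv]

/-- the inequalities after scaling -/
theorem key {τ v r : ℝ} (h1 : 1231 / 1000 ≤ τ) (h2 : τ ≤ 12312 / 10000) (hv : 0 ≤ v)
    (hv' : v ≤ 1 / 100) (hr : 0 < r) (hr2 : r ^ 2 = 1 - 95 / 144 * (τ ^ 2 / (τ - v) ^ 2)) :
    12 * Real.pi + 50 * v ≤ 7 * (Real.pi / r) ∧ 7 * (Real.pi / r) ≤ 12 * Real.pi + 130 * v := by
  obtain ⟨g1, g2⟩ := g_bd h1 h2 hv hv'
  set G := τ ^ 2 / (τ - v) ^ 2 with hG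
  have hpi := Real.pi_gt_three
  have hpi' := Real.pi_lt_d2
  obtain ⟨w, hw⟩ : ∃ w, w = 12 * r / 7 := ⟨_, rfl⟩
  have hw0 : 0 < w := by rw [hw]; positivity
  obtain ⟨S, hS⟩ : ∃ S, S = 95 / 49 * (G - 1) := ⟨_, rfl⟩
  have hw2 : w ^ 2 = 1 - S := by
    rw [hw, hS, div_pow, mul_pow, hr2]
    ring
  have s1 : 314 / 100 * v ≤ S := by
    rw [hS]
    nlinarith
  have s2 : S ≤ 3219 / 1000 * v := by
    rw [hS]
    nlinarith
  have s0 : 0 ≤ S := le_trans (by positivity) s1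
  have s3 : S ≤ 33 / 1000 := by linarith
  have w1 : w ≤ 1 - S / 2 := by nlinarith [sq_nonneg (1 - w)]
  have w2 : 1 - 6 / 10 * S ≤ w := by
    by_contra hcon
    push Not at hcon
    have : w ^ 2 < (1 - 6 / 10 * S) ^ 2 := by
      apply pow_lt_pow_left₀ hcon hw0.le
      norm_num
    nlinarith
  have e : 7 * (Real.pi / r) = 12 * Real.pi / w := by
    rw [hw]
    field_simp
  rw [e]
  constructor
  · rw [le_div_iff₀ hw0]
    have h3 : (12 * Real.pi + 50 * v) * w ≤ (12 * Real.pi + 50 * v) * (1 - S / 2) :=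
      mul_le_mul_of_nonneg_left w1 (by positivity)
    have h4 : 50 * v ≤ 6 * Real.pi * S := by nlinarith
    nlinarith [mul_nonneg hv s0]
  · rw [div_le_iff₀ hw0]
    have h3 : (12 * Real.pi + 130 * v) * (1 - 6 / 10 * S) ≤ (12 * Real.pi + 130 * v) * w :=
      mul_le_mul_of_nonneg_left w2 (by positivity)
    have h4 : 7.2 * Real.pi * S ≤ 120 * v := by nlinarith
    have h5 : 78 * S * v ≤ 10 * v := by nlinarith
    nlinarith

theorem tt_sq {n : ℕ} (hn : 1 ≤ n) : 0 < tt n ∧ (n : ℝ) ^ 2 - 1 / 4 = 95 / 144 * tt n ^ 2 := by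
  have h1 : (1 : ℝ) ≤ n := by exact_mod_cast hn
  have h2 : (0 : ℝ) < (n : ℝ) ^ 2 - 1 / 4 := by nlinarith
  constructor
  · unfold tt
    have h3 := Real.sqrt_pos.2 h2
    positivity
  · unfold tt
    rw [div_pow, mul_pow, Real.sq_sqrt h2.le, Real.sq_sqrt (by norm_num)]
    ring

theorem tt_bd {n : ℕ} (hn : 100 ≤ n) :
    1231 / 1000 * (n : ℝ) ≤ tt n ∧ tt n ≤ 12312 / 10000 * n := by
  have h1 : (100 : ℝ) ≤ n := by exact_mod_cast hn
  obtain ⟨h2, h3⟩ := tt_sq (n := n) (by omega)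
  constructor
  · by_contra hcon
    push Not at hcon
    have : tt n ^ 2 < (1231 / 1000 * (n : ℝ)) ^ 2 := by
      apply pow_lt_pow_left₀ hcon h2.le
      norm_num
    nlinarith
  · by_contra hcon
    push Not at hcon
    have : (12312 / 10000 * (n : ℝ)) ^ 2 < tt n ^ 2 := by
      apply pow_lt_pow_left₀ hcon (by positivity)
      norm_num
    nlinarith

/-- **SO-H** -/
theorem proof_H : S_H := by
  refine ⟨⟨100, ?_⟩, ?_⟩
  · intro n hn
    have h1 : (100 : ℝ) ≤ n := by exact_mod_cast hn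
    have hn0 : (0 : ℝ) < n := by linarith
    obtain ⟨hT, hnu⟩ := tt_sq (n := n) (by omega)
    obtain ⟨b1, b2⟩ := tt_bd hn
    refine ⟨⟨b1, b2⟩, ?_, ?_⟩
    · intro y hy hy'
      obtain ⟨τ, hτ⟩ : ∃ τ, τ = tt n / n := ⟨_, rfl⟩
      obtain ⟨v, hv⟩ : ∃ v, v = y / n := ⟨_, rfl⟩
      have t1 : 1231 / 1000 ≤ τ := by rw [hτ, le_div_iff₀ hn0]; exact b1
      have t2 : τ ≤ 12312 / 10000 := by rw [hτ, div_le_iff₀ hn0]; exact b2
      have v1 : 0 ≤ v := by rw [hv]; positivity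
      have v2 : v ≤ 1 / 100 := by rw [hv, div_le_iff₀ hn0]; linarith
      have eT : tt n = τ * n := by rw [hτ]; field_simp
      have ey : y = v * n := by rw [hv]; field_simp
      obtain ⟨g1, g2⟩ := g_bd t1 t2 v1 v2
      have hd : τ - v ≠ 0 := by intro e; linarith
      have eq : 1 - ((n : ℝ) ^ 2 - 1 / 4) / (tt n - y) ^ 2 =
          1 - 95 / 144 * (τ ^ 2 / (τ - v) ^ 2) := by
        rw [hnu, eT, ey]
        have : τ * (n : ℝ) - v * n = (τ - v) * n := by ring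
        rw [this]
        field_simp
      have hpos : 0 < 1 - 95 / 144 * (τ ^ 2 / (τ - v) ^ 2) := by linarith
      have hr := Real.sqrt_pos.2 hpos
      have hr2 := Real.sq_sqrt hpos.le
      have := key t1 t2 v1 v2 hr hr2
      unfold hh
      rw [eq]
      have f1 : 50 * y / n = 50 * v := by rw [hv]; ring
      have f2 : 130 * y / n = 130 * v := by rw [hv]; ring
      rw [f1, f2]
      exact this
    · intro s t hs hst ht
      have hs0 : 0 < s := by linarith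
      have ht0 : 0 < t := by linarith
      have hnu0 : 0 ≤ (n : ℝ) ^ 2 - 1 / 4 := by nlinarith
      have q1 : 3025 / 10000 ≤ 1 - ((n : ℝ) ^ 2 - 1 / 4) / s ^ 2 := by
        have : ((n : ℝ) ^ 2 - 1 / 4) / s ^ 2 ≤ 6975 / 10000 := by
          rw [div_le_iff₀ (by positivity)]
          have h5 : (6 / 5 * (n : ℝ)) ^ 2 ≤ s ^ 2 := by
            apply pow_le_pow_left₀ (by positivity) hs
          nlinarith
        linarith
      have q2 : 1 - ((n : ℝ) ^ 2 - 1 / 4) / s ^ 2 ≤ 1 - ((n : ℝ) ^ 2 - 1 / 4) / t ^ 2 := by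
        have : ((n : ℝ) ^ 2 - 1 / 4) / t ^ 2 ≤ ((n : ℝ) ^ 2 - 1 / 4) / s ^ 2 := by
          apply div_le_div_of_nonneg_left hnu0 (by positivity)
          exact pow_le_pow_left₀ hs0.le hst 2
        linarith
      have r1 : 55 / 100 ≤ Real.sqrt (1 - ((n : ℝ) ^ 2 - 1 / 4) / s ^ 2) := by
        apply Real.le_sqrt_of_sq_le
        norm_num
        norm_num at q1
        linarith
      unfold hh
      constructor
      · apply div_le_div_of_nonneg_left Real.pi_pos.le (by linarith)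
        exact Real.sqrt_le_sqrt q2
      · rw [div_le_iff₀ (by linarith)]
        have := Real.pi_lt_d2
        linarith
  · intro t ht
    have ht0 : 0 < t := by linarith
    obtain ⟨x, hx⟩ : ∃ x, x = 3 / 4 / t ^ 2 := ⟨_, rfl⟩
    have x0 : 0 < x := by rw [hx]; positivity
    have x1 : x ≤ 75 / 10000 := by
      rw [hx, div_le_iff₀ (by positivity)]
      nlinarith
    have e1 : 1 - (((1 : ℕ) : ℝ) ^ 2 - 1 / 4) / t ^ 2 = 1 - x := by
      rw [hx, Nat.cast_one]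
      norm_num
    have e2 : 2 / t ^ 2 = 8 / 3 * x := by
      rw [hx]
      ring
    have hpi := Real.pi_gt_three
    have hpi' := Real.pi_lt_d2
    unfold hh
    rw [e1, e2]
    have r0 : 0 < Real.sqrt (1 - x) := Real.sqrt_pos.2 (by linarith)
    have r1 : Real.sqrt (1 - x) ≤ 1 := Real.sqrt_le_iff.2 ⟨zero_le_one, by linarith⟩
    have r2 : 1 - 6 / 10 * x ≤ Real.sqrt (1 - x) := by
      apply Real.le_sqrt_of_sq_le
      nlinarith
    constructor
    · rw [le_div_iff₀ r0]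
      nlinarith
    · rw [div_le_iff₀ r0]
      have h3 : (Real.pi + 8 / 3 * x) * (1 - 6 / 10 * x) ≤
          (Real.pi + 8 / 3 * x) * Real.sqrt (1 - x) :=
        mul_le_mul_of_nonneg_left r2 (by positivity)
      nlinarith [mul_pos x0 Real.pi_pos]

end Pool.Agent.H47.SoH
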