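import Pool.Agent.H193.UV.Stm

/-!
# Project UV of helper193: Whitehead's lemma, permutations
-/

set_option autoImplicit false

namespace Pool.Agent.H47.UVW

open Pool.Agent.H258.CR
open Pool.Agent.H193.UV
open Matrix

section W
variable {R : Type} [Ring R]

theorem m01 (r : R) : ((el (by decide : (0 : Fin 3) ≠ 1) r : (Matrix (Fin 3) (Fin 3) R)ˣ) :
    Matrix (Fin 3) (Fin 3) R) = !![1, r, 0; 0, 1, 0; 0, 0, 1] := by
  rw [el_coe]
  ext i j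
  fin_cases i <;> fin_cases j <;> simp [Matrix.single]

theorem m10 (r : R) : ((el (by decide : (1 : Fin 3) ≠ 0) r : (Matrix (Fin 3) (Fin 3) R)ˣ) :
    Matrix (Fin 3) (Fin 3) R) = !![1, 0, 0; r, 1, 0; 0, 0, 1] := by
  rw [el_coe]
  ext i j
  fin_cases i <;> fin_cases j <;> simp [Matrix.single]

theorem m02 (r : R) : ((el (by decide : (0 : Fin 3) ≠ 2) r : (Matrix (Fin 3) (Fin 3) R)ˣ) :
    Matrix (Fin 3) (Fin 3) R) = !![1, 0, r; 0, 1, 0; 0, 0, 1] := by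
  rw [el_coe]
  ext i j
  fin_cases i <;> fin_cases j <;> simp [Matrix.single]

theorem m20 (r : R) : ((el (by decide : (2 : Fin 3) ≠ 0) r : (Matrix (Fin 3) (Fin 3) R)ˣ) :
    Matrix (Fin 3) (Fin 3) R) = !![1, 0, 0; 0, 1, 0; r, 0, 1] := by
  rw [el_coe]
  ext i j
  fin_cases i <;> fin_cases j <;> simp [Matrix.single]

/-- `diag(a, a⁻¹, 1)` -/
theorem dA (a : Rˣ) : ∃ g : Lam R,
    ((g : (Matrix (Fin 3) (Fin 3) R)ˣ) : Matrix (Fin 3) (Fin 3) R) =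
      !![(a : R), 0, 0; 0, ((a⁻¹ : Rˣ) : R), 0; 0, 0, 1] := by
  refine ⟨ee (by decide : (0 : Fin 3) ≠ 1) (a : R) *
    ee (by decide : (1 : Fin 3) ≠ 0) (-((a⁻¹ : Rˣ) : R)) *
    ee (by decide : (0 : Fin 3) ≠ 1) (a : R) *
    (ee (by decide : (0 : Fin 3) ≠ 1) (-1 : R) * ee (by decide : (1 : Fin 3) ≠ 0) (1 : R) *
      ee (by decide : (0 : Fin 3) ≠ 1) (-1 : R)), ?_⟩
  show ((el (by decide : (0 : Fin 3) ≠ 1) (a : R) : (Matrix (Fin 3) (Fin 3) R)ˣ) :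
      Matrix (Fin 3) (Fin 3) R) *
    ((el (by decide : (1 : Fin 3) ≠ 0) (-((a⁻¹ : Rˣ) : R)) : (Matrix (Fin 3) (Fin 3) R)ˣ) :
      Matrix (Fin 3) (Fin 3) R) *
    ((el (by decide : (0 : Fin 3) ≠ 1) (a : R) : (Matrix (Fin 3) (Fin 3) R)ˣ) :
      Matrix (Fin 3) (Fin 3) R) *
    (((el (by decide : (0 : Fin 3) ≠ 1) (-1 : R) : (Matrix (Fin 3) (Fin 3) R)ˣ) :
      Matrix (Fin 3) (Fin 3) R) *
    ((el (by decide : (1 : Fin 3) ≠ 0) (1 : R) : (Matrix (Fin 3) (Fin 3) R)ˣ) :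
      Matrix (Fin 3) (Fin 3) R) *
    ((el (by decide : (0 : Fin 3) ≠ 1) (-1 : R) : (Matrix (Fin 3) (Fin 3) R)ˣ) :
      Matrix (Fin 3) (Fin 3) R)) = _
  rw [m01, m10, m01, m10]
  simp only [Matrix.mul_fin_three]
  simp

/-- `diag(a, 1, a⁻¹)` -/
theorem dB (a : Rˣ) : ∃ g : Lam R,
    ((g : (Matrix (Fin 3) (Fin 3) R)ˣ) : Matrix (Fin 3) (Fin 3) R) =
      !![(a : R), 0, 0; 0, 1, 0; 0, 0, ((a⁻¹ : Rˣ) : R)] := by
  refine ⟨ee (by decide : (0 : Fin 3) ≠ 2) (a : R) *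
    ee (by decide : (2 : Fin 3) ≠ 0) (-((a⁻¹ : Rˣ) : R)) *
    ee (by decide : (0 : Fin 3) ≠ 2) (a : R) *
    (ee (by decide : (0 : Fin 3) ≠ 2) (-1 : R) * ee (by decide : (2 : Fin 3) ≠ 0) (1 : R) *
      ee (by decide : (0 : Fin 3) ≠ 2) (-1 : R)), ?_⟩
  show ((el (by decide : (0 : Fin 3) ≠ 2) (a : R) : (Matrix (Fin 3) (Fin 3) R)ˣ) :
      Matrix (Fin 3) (Fin 3) R) *
    ((el (by decide : (2 : Fin 3) ≠ 0) (-((a⁻¹ : Rˣ) : R)) : (Matrix (Fin 3) (Fin 3) R)ˣ) :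
      Matrix (Fin 3) (Fin 3) R) *
    ((el (by decide : (0 : Fin 3) ≠ 2) (a : R) : (Matrix (Fin 3) (Fin 3) R)ˣ) :
      Matrix (Fin 3) (Fin 3) R) *
    (((el (by decide : (0 : Fin 3) ≠ 2) (-1 : R) : (Matrix (Fin 3) (Fin 3) R)ˣ) :
      Matrix (Fin 3) (Fin 3) R) *
    ((el (by decide : (2 : Fin 3) ≠ 0) (1 : R) : (Matrix (Fin 3) (Fin 3) R)ˣ) :
      Matrix (Fin 3) (Fin 3) R) *
    ((el (by decide : (0 : Fin 3) ≠ 2) (-1 : R) : (Matrix (Fin 3) (Fin 3) R)ˣ) :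
      Matrix (Fin 3) (Fin 3) R)) = _
  rw [m02, m20, m02, m20]
  simp only [Matrix.mul_fin_three]
  simp

end W

/-- **S_W** -/
theorem s_W : S_W := by
  intro R _ a b
  obtain ⟨A, hA⟩ := dA a
  obtain ⟨A', hA'⟩ := dA a⁻¹
  obtain ⟨B, hB⟩ := dB b
  obtain ⟨B', hB'⟩ := dB b⁻¹
  refine ⟨A * B * A' * B', ?_⟩
  show ((A : (Matrix (Fin 3) (Fin 3) R)ˣ) : Matrix (Fin 3) (Fin 3) R) *
    ((B : (Matrix (Fin 3) (Fin 3) R)ˣ) : Matrix (Fin 3) (Fin 3) R) *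
    ((A' : (Matrix (Fin 3) (Fin 3) R)ˣ) : Matrix (Fin 3) (Fin 3) R) *
    ((B' : (Matrix (Fin 3) (Fin 3) R)ˣ) : Matrix (Fin 3) (Fin 3) R) = _
  rw [hA, hB, hA', hB']
  simp only [Matrix.mul_fin_three]
  ext i j
  fin_cases i <;> fin_cases j <;> simp [Matrix.diagonal]

/-! ## Permutations -/

section P
variable {P : Type} [Group P]

/-- multiplication on the nonnegative half -/
def fP (p : P) : Equiv.Perm (P × ℤ) where
  toFun x := if 0 ≤ x.2 then (p * x.1, x.2) else x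
  invFun x := if 0 ≤ x.2 then (p⁻¹ * x.1, x.2) else x
  left_inv x := by
    by_cases h : 0 ≤ x.2 <;> simp [h]
  right_inv x := by
    by_cases h : 0 ≤ x.2 <;> simp [h]

/-- the shift -/
def tP : Equiv.Perm (P × ℤ) where
  toFun x := (x.1, x.2 + 1)
  invFun x := (x.1, x.2 - 1)
  left_inv x := by simp
  right_inv x := by simp

/-- multiplication at the place `0` -/
def cP : P →* Equiv.Perm (P × ℤ) where
  toFun p :=
    { toFun := fun x => if x.2 = 0 then (p * x.1, x.2) else x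
      invFun := fun x => if x.2 = 0 then (p⁻¹ * x.1, x.2) else x
      left_inv := fun x => by
        obtain ⟨q, n⟩ := x
        by_cases h : n = 0 <;> simp [h]
      right_inv := fun x => by
        obtain ⟨q, n⟩ := x
        by_cases h : n = 0 <;> simp [h] }
  map_one' := by
    ext1 x
    simp
  map_mul' p q := by
    ext1 x
    by_cases h : x.2 = 0 <;> simp [h, mul_assoc]

theorem cP_inj : Function.Injective (cP : P → Equiv.Perm (P × ℤ)) := by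
  intro p q h
  have h1 : cP p (1, 0) = cP q (1, 0) := by rw [h]
  have h2 : ((if (0 : ℤ) = 0 then (p * 1, (0 : ℤ)) else (1, 0)) : P × ℤ) =
    (if (0 : ℤ) = 0 then (q * 1, (0 : ℤ)) else (1, 0)) := h1
  simpa using h2

theorem cP_eq (p : P) : cP p = fP p * tP * (fP p)⁻¹ * tP⁻¹ := by
  ext1 x
  obtain ⟨q, n⟩ := x
  show (if n = 0 then (p * q, n) else (q, n)) = fP p (tP ((fP p).symm (q, n - 1)))
  have e1 : (fP p).symm (q, n - 1) = if 0 ≤ n - 1 then (p⁻¹ * q, n - 1) else (q, n - 1) := rfl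
  have e2 : ∀ (r : P) (m : ℤ), tP (r, m) = (r, m + 1) := fun _ _ => rfl
  have e3 : ∀ (r : P) (m : ℤ), fP p (r, m) = if 0 ≤ m then (p * r, m) else (r, m) :=
    fun _ _ => rfl
  rw [e1]
  by_cases h : 0 ≤ n - 1
  · have h1 : ¬ n = 0 := by omega
    have h2 : 0 ≤ n - 1 + 1 := by omega
    rw [if_neg h1, if_pos h, e2, e3, if_pos h2, mul_inv_cancel_left, sub_add_cancel]
  · rw [if_neg h, e2, e3, sub_add_cancel]
    by_cases h0 : n = 0
    · subst h0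
      simp
    · have h2 : ¬ 0 ≤ n := by omega
      rw [if_neg h0, if_neg h2]

end P

/-- **S_P** -/
theorem s_P : S_P := by
  intro P _ _
  obtain ⟨e⟩ : Nonempty (P × ℤ ≃ ℕ) := nonempty_equiv_of_countable
  refine ⟨fun p => e.permCongrHom (fP p), e.permCongrHom tP,
    (e.permCongrHom : Equiv.Perm (P × ℤ) →* Equiv.Perm ℕ).comp cP, ?_, ?_⟩
  · intro p q h
    exact cP_inj (e.permCongrHom.injective h)
  · intro p
    show e.permCongrHom (cP p) = _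
    rw [cP_eq, map_mul, map_mul, map_mul, map_inv, map_inv]

end Pool.Agent.H47.UVW
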